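import Pool.Agent.Mg.F39b1da.G9689c2

namespace Pool.Agent.Results.MP_39b1da_gt.Unbounded

open Pool.Agent.MP_39b1da_gt

theorem result (n : ℕ) (hn : 4 ≤ n) : CdimUnbounded (EuclideanSpace ℝ (Fin n)) := by
  obtain ⟨m, rfl⟩ := Nat.exists_eq_add_of_le' hn
  exact cdimUnbounded m

end Pool.Agent.Results.MP_39b1da_gt.Unbounded
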